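import Pool.Agent.Q109.Box

/-!
Monotone partitions into four cliques whose box graph is a chordless four-cycle: the clique-width
is not bounded by a constant times the logarithm of the number of vertices; it can be of order the
square root of the number of vertices.
-/

set_option autoImplicit false

namespace Pool.Agent.Results.MP_41df87_co.NoLogBound

open Q109.Box SimpleGraph Pool.Agent.H175R2

/-- (1) For every `n ≥ 2` there is a graph on `4 n²` vertices with a monotone partition into four
cliques whose box graph is the chordless cycle on four vertices, of clique-width at least `n / 12`.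
(2) Hence there is no function `g` as asked. -/
theorem result :
    (∀ n : ℕ, 2 ≤ n → ∃ (V : Type) (_ : Finite V) (G : SimpleGraph V) (P : V → Fin 4),
      Nat.card V = 4 * n ^ 2 ∧ IsMonotoneCliquePartition G P ∧
      Nonempty (boxGraph G P ≃g cycleGraph 4) ∧ n ≤ 12 * cliqueWidth G) ∧
    ¬ ∃ g : ℕ → ℝ, ∀ (k : ℕ) (V : Type) [Finite V] (G : SimpleGraph V) (P : V → Fin k),
      3 ≤ k → IsMonotoneCliquePartition G P → Nonempty (boxGraph G P ≃g cycleGraph k) →
      (cliqueWidth G : ℝ) ≤ g k * Real.log (Nat.card V) := by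
  refine ⟨fun n hn => ⟨Fin 4 × Fin (n * n), inferInstance, gr n (n * n), fun v => v.1, ?_,
    is_partition n (n * n) (Nat.mul_pos (by omega) (by omega)), box_cycle hn, cw_ge hn⟩, ?_⟩
  · rw [Nat.card_prod]
    simp only [Nat.card_eq_fintype_card, Fintype.card_fin]
    ring
  · rintro ⟨g, hg⟩
    -- choose `j` large and `n = 2 j ^ 2`
    obtain ⟨j, hj⟩ := exists_nat_gt (max 1 (48 * g 4))
    have hj1 : (1 : ℝ) < j := lt_of_le_of_lt (le_max_left _ _) hj
    have hj2 : 48 * g 4 < j := lt_of_le_of_lt (le_max_right _ _) hj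
    have hj0 : 1 < j := by exact_mod_cast hj1
    have hn : 2 ≤ 2 * j ^ 2 := by nlinarith
    have h1 := cw_ge hn
    have h2 := hg 4 _ (gr (2 * j ^ 2) ((2 * j ^ 2) * (2 * j ^ 2))) (fun v => v.1) (by norm_num)
      (is_partition _ _ (Nat.mul_pos (by omega) (by omega))) (box_cycle hn)
    have h3 : (Nat.card (Fin 4 × Fin ((2 * j ^ 2) * (2 * j ^ 2))) : ℝ) = (2 * (j : ℝ)) ^ 4 := by
      rw [Nat.card_prod]
      simp only [Nat.card_eq_fintype_card, Fintype.card_fin]
      push_cast
      ring
    rw [h3, Real.log_pow] at h2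
    have h4 : Real.log (2 * (j : ℝ)) ≤ 2 * j - 1 := Real.log_le_sub_one_of_pos (by linarith)
    have h5 : 0 ≤ Real.log (2 * (j : ℝ)) := Real.log_nonneg (by linarith)
    have h6 : ((2 * j ^ 2 : ℕ) : ℝ) ≤ 12 * (cliqueWidth (gr (2 * j ^ 2) ((2 * j ^ 2) * (2 * j ^ 2))) : ℝ) := by
      exact_mod_cast h1
    push_cast at h6 h2
    by_cases hg0 : g 4 ≤ 0
    · have : g 4 * (4 * Real.log (2 * (j : ℝ))) ≤ 0 := mul_nonpos_of_nonpos_of_nonneg hg0 (by linarith)
      nlinarith
    · push Not at hg0
      have h7 : g 4 * (4 * Real.log (2 * (j : ℝ))) ≤ g 4 * (4 * (2 * j)) := by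
        apply mul_le_mul_of_nonneg_left _ hg0.le
        linarith
      have h8 : 2 * (j : ℝ) ^ 2 ≤ 96 * g 4 * j := by nlinarith
      nlinarith

end Pool.Agent.Results.MP_41df87_co.NoLogBound
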